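import Pool.Agent.SOL.Lift

/-!
# Theorem K4R, module M3: a commuting normal family of affine maps is unipotent
-/

set_option autoImplicit false

open Set Module

namespace Pool.Agent.Helper65.K4

open Pool.Agent

/-- Fitting's lemma for an endomorphism whose range lies in the kernel of a form. -/
theorem fitting {E : Type*} [AddCommGroup E] [Module ℝ E] [FiniteDimensional ℝ E]
    (f : Module.End ℝ E) (φ : E →ₗ[ℝ] ℝ) (hf : ∀ x, φ (f x) = 0) (W : Submodule ℝ E)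
    (hW : ∀ x ∈ W, f x ∈ W) {x : E} (hx : x ∈ W) (hx' : φ x ≠ 0) :
    ∃ y ∈ W, (f ^ finrank ℝ E) y = 0 ∧ φ y ≠ 0 := by
  set g : Module.End ℝ W := f.restrict hW with hg
  have hpow : ∀ (n : ℕ) (w : W), ((g ^ n) w : E) = (f ^ n) w := by
    intro n
    induction n with
    | zero => exact fun w => rfl
    | succ n ih =>
      intro w
      rw [pow_succ, pow_succ]
      exact ih (g w)
  obtain ⟨N, hN⟩ := Filter.eventually_atTop.1 g.eventually_isCompl_ker_pow_range_pow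
  have h1 := hN (N + 1) (Nat.le_succ N)
  have h2 : (⟨x, hx⟩ : W) ∈ LinearMap.ker (g ^ (N + 1)) ⊔ LinearMap.range (g ^ (N + 1)) := by
    rw [h1.sup_eq_top]
    exact Submodule.mem_top
  obtain ⟨y, hy, z, ⟨z', hz'⟩, hyz⟩ := Submodule.mem_sup.1 h2
  have hφ : ∀ w : W, φ ((g ^ (N + 1)) w) = 0 := by
    intro w
    rw [pow_succ' g N]
    exact hf _
  refine ⟨y, y.2, ?_, ?_⟩
  · have h3 : (y : E) ∈ LinearMap.ker (f ^ (N + 1)) := by
      rw [LinearMap.mem_ker, ← hpow, LinearMap.mem_ker.1 hy]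
      rfl
    exact LinearMap.mem_ker.1 (Module.End.ker_pow_le_ker_pow_finrank f (N + 1) h3)
  · have h3 : φ x = φ y + φ z := by
      rw [← map_add]
      congr 1
      exact (congrArg (Subtype.val) hyz).symm
    have h4 : φ z = 0 := by
      rw [← hz']
      exact hφ z'
    rw [h4, add_zero] at h3
    rwa [← h3]

/-- A commuting family has a common generalised kernel on which the form does not vanish. -/
theorem common {E : Type*} [AddCommGroup E] [Module ℝ E] [FiniteDimensional ℝ E]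
    (S : Set (Module.End ℝ E)) (hS : ∀ f ∈ S, ∀ g ∈ S, f * g = g * f) (φ : E →ₗ[ℝ] ℝ)
    (hf : ∀ f ∈ S, ∀ x, φ (f x) = 0) {x : E} (hx : φ x ≠ 0) :
    ∃ y, φ y ≠ 0 ∧ ∀ f ∈ S, (f ^ finrank ℝ E) y = 0 := by
  classical
  let P : ℕ → Prop := fun d => ∃ W : Submodule ℝ E, finrank ℝ W = d ∧ (∃ y ∈ W, φ y ≠ 0) ∧
    ∀ f ∈ S, ∀ y ∈ W, f y ∈ W
  have hP : ∃ d, P d := ⟨_, ⊤, rfl, ⟨x, Submodule.mem_top, hx⟩, fun _ _ _ _ => Submodule.mem_top⟩
  obtain ⟨W, hWd, ⟨y, hyW, hy⟩, hW⟩ := Nat.find_spec hP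
  refine ⟨y, hy, fun f hfS => ?_⟩
  set W' : Submodule ℝ E := W ⊓ LinearMap.ker (f ^ finrank ℝ E) with hW'
  have h1 : P (finrank ℝ W') := by
    obtain ⟨z, hzW, hz0, hz⟩ := fitting f φ (hf f hfS) W (hW f hfS) hyW hy
    refine ⟨W', rfl, ⟨z, ⟨hzW, hz0⟩, hz⟩, fun g hgS v hv => ⟨hW g hgS v hv.1, ?_⟩⟩
    have hc : Commute (f ^ finrank ℝ E) g := Commute.pow_left (hS f hfS g hgS) _
    have h2 : (f ^ finrank ℝ E) (g v) = g ((f ^ finrank ℝ E) v) :=
      LinearMap.congr_fun hc.eq v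
    change (f ^ finrank ℝ E) (g v) = 0
    rw [h2, show (f ^ finrank ℝ E) v = 0 from hv.2, map_zero]
  have h2 : finrank ℝ W ≤ finrank ℝ W' := by
    rw [hWd]
    exact Nat.find_min' hP h1
  have h3 : W' = W := Submodule.eq_of_le_of_finrank_le inf_le_left h2
  have h4 : y ∈ W' := by
    rw [h3]
    exact hyW
  exact h4.2

variable {V : Type*} [NormedAddCommGroup V] [NormedSpace ℝ V] [FiniteDimensional ℝ V]

omit [FiniteDimensional ℝ V] in
theorem coe_pow (a : SOL.EndE V) (n : ℕ) :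
    ((a : (V × ℝ) →ₗ[ℝ] (V × ℝ)) ^ n : Module.End ℝ (V × ℝ)) =
      ((a ^ n : SOL.EndE V) : (V × ℝ) →ₗ[ℝ] (V × ℝ)) := by
  induction n with
  | zero => rfl
  | succ n ih =>
    rw [pow_succ, pow_succ, ih]
    rfl

/-- M3 -/
theorem m3 {Γ A : Subgroup (V ≃ᵃ[ℝ] V)} (hA : A ≤ Γ) (hnorm : ∀ g ∈ Γ, ∀ s ∈ A, g * s * g⁻¹ ∈ A)
    (hcomm : ∀ s ∈ A, ∀ t ∈ A, s * t = t * s)
    (hinv : ∀ Z : AffineSubspace ℝ V, (Z : Set V).Nonempty → (∀ γ ∈ Γ, ∀ x ∈ Z, γ x ∈ Z) → Z = ⊤) :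
    ∀ s ∈ A, IsNilpotent (SOL.liftA s - 1 : SOL.EndE V) := by
  classical
  set n := finrank ℝ (V × ℝ) with hn
  -- the affine subspace
  let Z : AffineSubspace ℝ V :=
    { carrier := {x | ∀ s ∈ A, ((SOL.liftA s - 1 : SOL.EndE V) ^ n) (x, (1 : ℝ)) = 0}
      smul_vsub_vadd_mem' := by
        intro c p₁ p₂ p₃ h₁ h₂ h₃ s hs
        have e1 : ((c • (p₁ -ᵥ p₂) +ᵥ p₃ : V), (1 : ℝ)) =
            c • ((p₁, (1 : ℝ)) - (p₂, (1 : ℝ))) + (p₃, (1 : ℝ)) := by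
          ext
          · rfl
          · simp
        rw [e1, map_add, map_smul, map_sub, h₁ s hs, h₂ s hs, h₃ s hs, sub_zero, smul_zero,
          add_zero] }
  have hZmem : ∀ x, x ∈ Z ↔ ∀ s ∈ A, ((SOL.liftA s - 1 : SOL.EndE V) ^ n) (x, (1 : ℝ)) = 0 :=
    fun x => Iff.rfl
  have hZne : (Z : Set V).Nonempty := by
    obtain ⟨y, hy, hy'⟩ := common (E := V × ℝ)
      ((fun s : V ≃ᵃ[ℝ] V => ((SOL.liftA s - 1 : SOL.EndE V) : (V × ℝ) →ₗ[ℝ] (V × ℝ))) '' (A : Set _))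
      (by
        rintro _ ⟨s, hs, rfl⟩ _ ⟨t, ht, rfl⟩
        have h1 : (SOL.liftA s - 1 : SOL.EndE V) * (SOL.liftA t - 1) =
            (SOL.liftA t - 1) * (SOL.liftA s - 1) := by
          have h2 : SOL.liftA s * SOL.liftA t = (SOL.liftA t * SOL.liftA s : SOL.EndE V) := by
            rw [← SOL.liftA_mul, ← SOL.liftA_mul, hcomm s hs t ht]
          rw [sub_mul, mul_sub, mul_sub, sub_mul, mul_sub, mul_sub, h2]
          simp only [one_mul, mul_one]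
          abel
        exact congrArg (fun a : SOL.EndE V => (a : (V × ℝ) →ₗ[ℝ] (V × ℝ))) h1)
      (LinearMap.snd ℝ V ℝ)
      (by
        rintro _ ⟨s, hs, rfl⟩ x
        change x.2 - x.2 = 0
        rw [sub_self])
      (x := ((0 : V), (1 : ℝ))) one_ne_zero
    refine ⟨y.2⁻¹ • y.1, fun s hs => ?_⟩
    have h1 := hy' _ ⟨s, hs, rfl⟩
    rw [coe_pow] at h1
    have h2 : ((SOL.liftA s - 1 : SOL.EndE V) ^ n) y = 0 := h1
    have h3 : (y.2⁻¹ • y.1, (1 : ℝ)) = y.2⁻¹ • y := by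
      ext
      · rfl
      · exact (inv_mul_cancel₀ hy).symm
    rw [h3, map_smul, h2, smul_zero]
  have hZinv : ∀ γ ∈ Γ, ∀ x ∈ Z, γ x ∈ Z := by
    intro γ hγ x hx s hs
    have h1 : γ⁻¹ * s * γ ∈ A := by
      have := hnorm γ⁻¹ (Γ.inv_mem hγ) s hs
      rwa [inv_inv] at this
    have h2 := hx _ h1
    have h3 : ∀ k : ℕ, SOL.liftA γ * (SOL.liftA (γ⁻¹ * s * γ) - 1) ^ k =
        (SOL.liftA s - 1 : SOL.EndE V) ^ k * SOL.liftA γ := by
      intro k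
      induction k with
      | zero => rw [pow_zero, pow_zero, mul_one, one_mul]
      | succ k ih =>
        have h4 : SOL.liftA γ * (SOL.liftA (γ⁻¹ * s * γ) - 1) =
            (SOL.liftA s - 1 : SOL.EndE V) * SOL.liftA γ := by
          rw [mul_sub, sub_mul, ← SOL.liftA_mul, ← SOL.liftA_mul, mul_one, one_mul]
          congr 2
          rw [mul_assoc, mul_inv_cancel_left]
        rw [pow_succ, ← mul_assoc, ih, mul_assoc, h4, ← mul_assoc, ← pow_succ]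
    have h4 : SOL.liftA γ (x, (1 : ℝ)) = (γ x, (1 : ℝ)) := by
      have := SOL.act_liftA γ x
      exact Prod.ext this rfl
    rw [← h4]
    have h5 := congrArg (fun a : SOL.EndE V => a (x, (1 : ℝ))) (h3 n)
    change (SOL.liftA γ) (((SOL.liftA (γ⁻¹ * s * γ) - 1 : SOL.EndE V) ^ n) (x, (1 : ℝ))) =
      ((SOL.liftA s - 1 : SOL.EndE V) ^ n) (SOL.liftA γ (x, (1 : ℝ))) at h5
    rw [← h5, h2, map_zero]
  have hZtop := hinv Z hZne hZinv
  intro s hs
  refine ⟨n, ContinuousLinearMap.ext fun y => ?_⟩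
  have h1 : ∀ x : V, ((SOL.liftA s - 1 : SOL.EndE V) ^ n) (x, (1 : ℝ)) = 0 := by
    intro x
    have : x ∈ Z := by
      rw [hZtop]
      exact AffineSubspace.mem_top ℝ V x
    exact this s hs
  have h2 : y = y.2 • ((0 : V), (1 : ℝ)) + ((y.1, (1 : ℝ)) - ((0 : V), (1 : ℝ))) := by
    ext <;> simp
  rw [h2, map_add, map_smul, map_sub, h1, h1, smul_zero, sub_zero, add_zero]
  rfl

end Pool.Agent.Helper65.K4
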